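import Pool.Agent.Helper91.FS.Goals

/-! Packet FS-R1AT (MP_0130f7_co). -/

set_option autoImplicit false

open Finset

namespace Pool.Agent.Helper98.FS

open Pool.Agent.Helper47.SR (Grp mv lev wt Ew W IsInv up dn StarAt HalfStarAt)
open Pool.Agent.Helper49.NF
open Pool.Agent.Helper91.FS

variable {n : ℕ}

lemma W_eq (G : Grp n) (F : Finset (Finset (Fin n))) : W G F = #F + Ew G F := by
  unfold W Ew
  rw [Finset.sum_add_distrib]
  simp

lemma AU_one (G : Grp n) (j : ℕ) : AU G j 1 (Ew G (lev n j)) where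
  k1 := le_rfl
  lb := fun A _ => Nat.le_add_right _ _
  ex := by
    rw [W_eq, card_powersetCard, card_univ, Fintype.card_fin, one_mul]

theorem goal_R1AT (hSTBB : Goal_STBB) (hEJT : Goal_EJT) (hR1K : Goal_R1K) (hCMPT : Goal_CMPT)
    (hN1A : Pool.Agent.Helper49.NF.Goal_N1A) (hN1C : Pool.Agent.Helper49.NF.Goal_N1C) :
    Goal_R1AT := by
  intro t ht
  obtain ⟨n₁, hN1⟩ := hN1A
  obtain ⟨n₂, hN2⟩ := hN1C
  obtain ⟨n₃, hN3⟩ := hCMPT t ht
  refine ⟨max n₁ (max n₂ n₃), ?_⟩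
  intro n hn L f G hG hL hf m hm hmn
  have hn1 : n₁ ≤ n := le_trans (le_max_left _ _) hn
  have hn2 : n₂ ≤ n := le_trans (le_trans (le_max_left _ _) (le_max_right _ _)) hn
  have hn3 : n₃ ≤ n := le_trans (le_trans (le_max_right _ _) (le_max_right _ _)) hn
  have hm6 : 6 ≤ m := by omega
  have hL1 := hG.L1
  have hm20 : m ^ 20 ≤ n :=
    (Nat.pow_le_pow_right (by omega) (by omega : 20 ≤ 400 * t)).trans hmn
  obtain ⟨K, hK⟩ : ∃ K, K = L * (m + 1) ^ (t - 1) := ⟨_, rfl⟩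
  have hK1 : 1 ≤ K := by
    rw [hK]
    exact Nat.one_le_iff_ne_zero.2
      (Nat.mul_ne_zero (by omega) (pow_ne_zero _ (by omega)))
  have hKL : L ≤ K := by
    rw [hK]
    exact Nat.le_mul_of_pos_right _ (Nat.pow_pos (by omega))
  have hK100 : K ^ 100 ≤ n := by
    have h1 : (K ^ 100) ^ 2 ≤ n ^ 2 := by
      have e : (K ^ 100) ^ 2 = L ^ 200 * ((m + 1) ^ (t - 1)) ^ 200 := by
        rw [hK, ← pow_mul, mul_pow]
      have a1 : L ^ 200 ≤ n :=
        (Nat.pow_le_pow_right hL1 (by omega : 200 ≤ 1000 * t)).trans hL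
      have a2 : ((m + 1) ^ (t - 1)) ^ 200 ≤ n := by
        have h2 : m + 1 ≤ m ^ 2 := by nlinarith
        calc ((m + 1) ^ (t - 1)) ^ 200 ≤ ((m ^ 2) ^ (t - 1)) ^ 200 := by gcongr
          _ = m ^ (2 * (t - 1) * 200) := by rw [← pow_mul, ← pow_mul, mul_assoc]
          _ ≤ m ^ (400 * t) := Nat.pow_le_pow_right (by omega) (by omega)
          _ ≤ n := hmn
      rw [e, pow_two]
      exact Nat.mul_le_mul a1 a2
    exact (Nat.pow_le_pow_iff_left (by norm_num)).1 h1
  obtain ⟨f0, hf0, hcmp⟩ := hN3 n hn3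
  have hA := hN1 n hn1 m K f0 (by omega) hm20 hK1 hK100 hf0
  obtain ⟨c1, c2, c3, c4, c5⟩ := hN2 n hn2 m K (by omega) hm20 hK1 hK100
  have hs0 : K * (m + 1) = L * (m + 1) ^ t := by
    rw [hK, mul_assoc, ← pow_succ, Nat.sub_add_cancel ht]
  have hEw : ∀ j, 5 * t + 1 ≤ j → Ew G (lev n j) ≤ K * n * Ma n f0 j := by
    intro j hj
    calc Ew G (lev n j) ≤ L * n ^ t * Mb n f j := hEJT t n L f G hG j
      _ = L * (n ^ t * Mb n f j) := by ring
      _ ≤ L * (n * Ma n f0 j) := Nat.mul_le_mul_left _ (hcmp f j hf hj)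
      _ ≤ K * (n * Ma n f0 j) := Nat.mul_le_mul_right _ hKL
      _ = K * n * Ma n f0 j := by ring
  have hwt : ∀ j, t ≤ j → j ≤ m + 1 → ∀ A ∈ lev n j, 1 + wt G A ≤ K * (m + 1) := by
    intro j hj hjm A hAj
    obtain ⟨-, hA2⟩ := mem_powersetCard.1 hAj
    have h2 := (hSTBB t n L f G hG).2.2 A (by omega)
    rw [hA2] at h2
    rw [hs0]
    exact h2.trans (Nat.mul_le_mul_left _ (Nat.pow_le_pow_left hjm t))
  generalize hr : n / (4 * m) = r at *
  generalize hs : K * (m + 1) = s at *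
  generalize hz : n / (4 * s ^ 2) = z at *
  have hs1 : 1 ≤ s := by
    rw [← hs]
    exact Nat.one_le_iff_ne_zero.2 (Nat.mul_ne_zero (by omega) (by omega))
  have hr4 : 4 * m * r ≤ n := by
    rw [← hr]
    exact Nat.mul_div_le _ _
  have hr24 : 24 * r ≤ n := by
    calc 24 * r ≤ 4 * m * r := Nat.mul_le_mul_right _ (by omega)
      _ ≤ n := hr4
  have hzn : z ≤ n := by
    rw [← hz]
    exact Nat.div_le_self _ _
  have hTT : 1 * (n - m) * Ew G (lev n m) + 1 * (m + 1) * Ew G (lev n (m + 1)) ≤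
      r * z.choose m := by
    rw [one_mul, one_mul, add_comm]
    calc (m + 1) * Ew G (lev n (m + 1)) + (n - m) * Ew G (lev n m)
        ≤ (m + 1) * (K * n * Ma n f0 (m + 1)) + (n - m) * (K * n * Ma n f0 m) :=
          Nat.add_le_add (Nat.mul_le_mul_left _ (hEw (m + 1) (by omega)))
            (Nat.mul_le_mul_left _ (hEw m (by omega)))
      _ ≤ r * z.choose m := hA
  have hcz : z.choose m ≤ n.choose m := Nat.choose_le_choose _ hzn
  have hE4 : 4 * Ew G (lev n m) ≤ n.choose m := by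
    have h1 : (n - m) * Ew G (lev n m) ≤ r * n.choose m := by
      calc (n - m) * Ew G (lev n m)
          ≤ 1 * (n - m) * Ew G (lev n m) + 1 * (m + 1) * Ew G (lev n (m + 1)) := by
            rw [one_mul]
            exact Nat.le_add_right _ _
        _ ≤ r * z.choose m := hTT
        _ ≤ r * n.choose m := Nat.mul_le_mul_left _ hcz
    have h2 : (n - m) * (4 * Ew G (lev n m)) ≤ (n - m) * n.choose m := by
      calc (n - m) * (4 * Ew G (lev n m)) = 4 * ((n - m) * Ew G (lev n m)) := by ring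
        _ ≤ 4 * (r * n.choose m) := Nat.mul_le_mul_left _ h1
        _ = (4 * r) * n.choose m := by ring
        _ ≤ (n - m) * n.choose m := Nat.mul_le_mul_right _ (by omega)
    exact le_of_mul_le_mul_left h2 (by omega)
  refine hR1K n m s r z 1 1 (Ew G (lev n m)) (Ew G (lev n (m + 1))) G (by omega) c5 hs1 c1 hzn
    (by omega) (hwt m (by omega) (by omega)) (hwt (m + 1) (by omega) le_rfl) (AU_one G m)
    (AU_one G (m + 1)) (by omega) (by omega) hTT c3 c4

end Pool.Agent.Helper98.FS
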